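import Pool.Agent.W300.FT.Stm

set_option autoImplicit false

/-!
# Project FT, part LOC3: the local value is right
-/

namespace Pool.Agent.W156.FT

open MeasureTheory ProbabilityTheory Pool.Agent.W300.FT

instance isProb (V : Type) : IsProbabilityMeasure (PI V) := by
  unfold PI
  infer_instance

theorem mix_meas {V : Type} (N : Set V) :
    Measurable (fun p : (V → unitInterval) × (V → unitInterval) => mix N p.1 p.2) := by
  classical
  refine measurable_pi_iff.2 fun u => ?_
  unfold mix
  by_cases h : u ∈ N
  · simp only [h, if_true]
    exact (measurable_pi_apply u).comp measurable_fst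
  · simp only [h, if_false]
    exact (measurable_pi_apply u).comp measurable_snd

theorem eqB {X : Type} [MeasurableSpace X] {f g : X → Bool} (hf : Measurable f)
    (hg : Measurable g) : MeasurableSet {x | f x = g x} := by
  have h : {x | f x = g x} = (f ⁻¹' {true} ∩ g ⁻¹' {true}) ∪ (f ⁻¹' {false} ∩ g ⁻¹' {false}) := by
    ext x
    show f x = g x ↔ (f x = true ∧ g x = true) ∨ (f x = false ∧ g x = false)
    cases f x <;> cases g x <;> simp
  rw [h]
  exact ((hf (measurableSet_singleton _)).inter (hg (measurableSet_singleton _))).union
    ((hf (measurableSet_singleton _)).inter (hg (measurableSet_singleton _)))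

theorem key {V : Type} (G : SimpleGraph V) (F : (V → unitInterval) → V → K → Bool)
    (hF : Measurable F) (m : ℕ) (v : V) (y : V → unitInterval) (hy : y ∈ Loc G F m v) :
    ∀ᵐ y1 ∂(PI V), F (mix (Bal G m v) y y1) v = Gf G F m v y := by
  have hg : Measurable (fun y1 : V → unitInterval => F (mix (Bal G m v) y y1) v) := by
    refine (measurable_pi_apply v).comp (hF.comp ?_)
    exact (mix_meas (Bal G m v)).comp (measurable_const.prodMk measurable_id)
  have hall : ∀ᵐ y1 ∂(PI V), ∀ k : K, F (mix (Bal G m v) y y1) v k = Gf G F m v y k := by
    rw [ae_all_iff]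
    intro k
    have hgk : Measurable (fun y1 : V → unitInterval => F (mix (Bal G m v) y y1) v k) :=
      (measurable_pi_apply k).comp hg
    have hA : MeasurableSet {y1 : V → unitInterval | F (mix (Bal G m v) y y1) v k = true} :=
      hgk (measurableSet_singleton true)
    set A : Set (V → unitInterval) := {y1 | F (mix (Bal G m v) y y1) v k = true} with hAdef
    have hprod : ((PI V).prod (PI V)) (A ×ˢ Aᶜ) = 0 := by
      refine measure_mono_null ?_ (ae_iff.1 hy)
      rintro ⟨a, b⟩ ⟨ha, hb⟩ h
      apply hb
      have := congrFun h k
      show F (mix (Bal G m v) y b) v k = true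
      rw [← this]
      exact ha
    rw [Measure.prod_prod] at hprod
    rcases mul_eq_zero.1 hprod with h0 | h0
    · have hG : Gf G F m v y k = false := by
        unfold Gf
        rw [decide_eq_false_iff_not]
        rw [← hAdef, h0]
        simp
      rw [hG]
      have := measure_eq_zero_iff_ae_notMem.1 h0
      filter_upwards [this] with y1 hy1
      have h3 : ¬ (F (mix (Bal G m v) y y1) v k = true) := hy1
      simpa using h3
    · have h1 : PI V A = 1 := (prob_compl_eq_zero_iff hA).1 h0
      have hG : Gf G F m v y k = true := by
        unfold Gf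
        rw [decide_eq_true_iff]
        rw [← hAdef, h1]
        exact ENNReal.half_lt_self (by simp) (by simp)
      rw [hG]
      have := measure_eq_zero_iff_ae_notMem.1 h0
      filter_upwards [this] with y1 hy1
      have h3 : y1 ∈ A := by simpa using hy1
      exact h3
  filter_upwards [hall] with y1 hy1
  exact funext hy1

theorem loc3 (hmix : S_MIX) (h1 : S_LOC1) (h2 : S_LOC2) : S_LOC3 := by
  intro V G F hV hF m v
  obtain ⟨hL, hGf⟩ := h1 V G F hV hF m v
  have hFv : Measurable (fun y : V → unitInterval => F y v) := (measurable_pi_apply v).comp hF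
  have hms : MeasurableSet {y : V → unitInterval | y ∈ Loc G F m v → F y v = Gf G F m v y} := by
    have h3 : MeasurableSet {y : V → unitInterval | F y v = Gf G F m v y} := by
      have h4 : {y : V → unitInterval | F y v = Gf G F m v y} =
          ⋂ k : K, {y | F y v k = Gf G F m v y k} := by
        ext y
        simp only [Set.mem_setOf_eq, Set.mem_iInter]
        exact funext_iff
      rw [h4]
      refine MeasurableSet.iInter fun k => ?_
      exact eqB ((measurable_pi_apply k).comp hFv)
        ((measurable_pi_apply k).comp hGf)
    have h5 : {y : V → unitInterval | y ∈ Loc G F m v → F y v = Gf G F m v y} =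
        (Loc G F m v)ᶜ ∪ {y | F y v = Gf G F m v y} := by
      ext y
      simp only [Set.mem_setOf_eq, Set.mem_union, Set.mem_compl_iff]
      tauto
    rw [h5]
    exact hL.compl.union h3
  have hp := hmix V (Bal G m v) hV
  rw [← hp.map_eq, ae_map_iff hp.measurable.aemeasurable hms]
  have hms2 : MeasurableSet {p : (V → unitInterval) × (V → unitInterval) |
      mix (Bal G m v) p.1 p.2 ∈ Loc G F m v →
        F (mix (Bal G m v) p.1 p.2) v = Gf G F m v (mix (Bal G m v) p.1 p.2)} :=
    hp.measurable hms
  rw [Measure.ae_prod_iff_ae_ae hms2]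
  refine Filter.Eventually.of_forall fun y => ?_
  have h6 : ∀ y1 : V → unitInterval, (mix (Bal G m v) y y1 ∈ Loc G F m v ↔ y ∈ Loc G F m v) ∧
      Gf G F m v (mix (Bal G m v) y y1) = Gf G F m v y := by
    intro y1
    refine h2 V G F m v _ _ fun u hu => ?_
    unfold mix
    rw [if_pos hu]
  by_cases hy : y ∈ Loc G F m v
  · filter_upwards [key G F hF m v y hy] with y1 hy1 _
    rw [(h6 y1).2]
    exact hy1
  · refine Filter.Eventually.of_forall fun y1 h => ?_
    exact absurd ((h6 y1).1.1 h) hy

end Pool.Agent.W156.FT
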